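import Pool.Agent.X184.SS.Stm2

/-! Part SP_JOINT (MP_a8437e_an). -/

set_option autoImplicit false

namespace Pool.Agent.X69.SP

open Finset Pool.Agent.X184.SS

theorem t_JOINT : S_JOINT := by
  classical
  intro hUNI hHER hLEM n N hN ε hε
  obtain ⟨p, hp⟩ := hLEM n N hN ε hε
  have aux : ∀ (d u : ℕ), ∃ (z : ℕ → ℕ →₀ ℝ) (k : ℕ) (G : Fin k → Finset ℕ), k = p * d ∧
      (∀ l j, 0 ≤ z l j) ∧ (∀ l < d, ∑ j ∈ (z l).support, z l j = 1) ∧
      (∀ l, d ≤ l → z l = 0) ∧ (∀ l, ∀ j ∈ (z l).support, j ∈ N ∧ u ≤ j) ∧
      (∀ l l', l ≠ l' → Disjoint (z l).support (z l').support) ∧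
      (∀ l, (z l).support ⊆ univ.biUnion G) ∧ (∀ r, G r ∈ Sch n) ∧
      (∀ r s, r < s → ∀ a ∈ G r, ∀ b ∈ G s, a < b) ∧ (∀ r, ∀ a ∈ G r, u ≤ a) ∧
      ∀ l, ∀ F ∈ Sch n, ∑ j ∈ F, z l j ≤ ε := by
    intro d u
    induction d with
    | zero =>
      refine ⟨fun _ => 0, 0, Fin.elim0, by simp, by simp, by simp, by simp, by simp, by simp,
        by simp, fun r => r.elim0, fun r => r.elim0, fun r => r.elim0, ?_⟩
      intro l F _
      simp [hε.le]
    | succ d ih =>
      obtain ⟨z, k, G, h0, h1, h2, h3, h4, h5, h6, h7, h8, h9, h10⟩ := ih
      obtain ⟨v, hv⟩ : ∃ v, v = (univ.biUnion G).sup id + 1 + u := ⟨_, rfl⟩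
      have hlt : ∀ a ∈ univ.biUnion G, a < v := by
        intro a ha
        have : a ≤ (univ.biUnion G).sup id := Finset.le_sup (f := id) ha
        omega
      obtain ⟨z', G', k1, k2, k3, k4, k5, k6, k7, k8⟩ := hp v
      have hG' : ∀ r, ∀ a ∈ G' r, v ≤ a := fun r a ha => (k3 a (k7 r a ha)).2
      refine ⟨fun l => if l = d then z' else z l, k + p, Fin.append G G', ?_, ?_, ?_, ?_, ?_,
        ?_, ?_, ?_, ?_, ?_, ?_⟩
      · rw [h0]; ring
      · intro l j
        by_cases hl : l = d
        · simp only [hl, if_true]; exact k1 j
        · simp only [hl, if_false]; exact h1 l j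
      · intro l hl
        by_cases hl' : l = d
        · simp only [hl', if_true]; exact k2
        · simp only [hl', if_false]; exact h2 l (by omega)
      · intro l hl
        have hl' : l ≠ d := by omega
        simp only [hl', if_false]
        exact h3 l (by omega)
      · intro l j hj
        by_cases hl : l = d
        · simp only [hl, if_true] at hj
          have := k3 j hj
          exact ⟨this.1, by omega⟩
        · simp only [hl, if_false] at hj
          exact h4 l j hj
      · intro l l' hne
        by_cases hl : l = d
        · have hl' : l' ≠ d := fun h => hne (hl.trans h.symm)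
          simp only [hl, hl', if_true, if_false]
          rw [Finset.disjoint_left]
          intro a ha hb
          have a1 := (k3 a ha).2
          have a2 := hlt a (h6 l' hb)
          omega
        · by_cases hl' : l' = d
          · simp only [hl, hl', if_true, if_false]
            rw [Finset.disjoint_left]
            intro a ha hb
            have a1 := (k3 a hb).2
            have a2 := hlt a (h6 l ha)
            omega
          · simp only [hl, hl', if_false]
            exact h5 l l' hne
      · intro l a ha
        rw [Finset.mem_biUnion]
        by_cases hl : l = d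
        · simp only [hl, if_true] at ha
          have := k4 ha
          rw [Finset.mem_biUnion] at this
          obtain ⟨r, -, hr⟩ := this
          exact ⟨Fin.natAdd k r, Finset.mem_univ _, by rw [Fin.append_right]; exact hr⟩
        · simp only [hl, if_false] at ha
          have := h6 l ha
          rw [Finset.mem_biUnion] at this
          obtain ⟨r, -, hr⟩ := this
          exact ⟨Fin.castAdd p r, Finset.mem_univ _, by rw [Fin.append_left]; exact hr⟩
      · intro r
        induction r using Fin.addCases with
        | left r => rw [Fin.append_left]; exact h7 r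
        | right r => rw [Fin.append_right]; exact k5 r
      · intro r s hrs a ha b hb
        induction r using Fin.addCases with
        | left r =>
          rw [Fin.append_left] at ha
          induction s using Fin.addCases with
          | left s =>
            rw [Fin.append_left] at hb
            exact h8 r s (by
              have h := Fin.lt_def.1 hrs
              simp only [Fin.val_castAdd] at h
              exact Fin.lt_def.2 h) a ha b hb
          | right s =>
            rw [Fin.append_right] at hb
            have a1 := hlt a (Finset.mem_biUnion.2 ⟨r, Finset.mem_univ _, ha⟩)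
            have a2 := hG' s b hb
            omega
        | right r =>
          rw [Fin.append_right] at ha
          induction s using Fin.addCases with
          | left s =>
            exfalso
            simp only [Fin.lt_def, Fin.val_natAdd, Fin.val_castAdd] at hrs
            omega
          | right s =>
            rw [Fin.append_right] at hb
            exact k6 r s (by
              have h := Fin.lt_def.1 hrs
              simp only [Fin.val_natAdd] at h
              exact Fin.lt_def.2 (by omega)) a ha b hb
      · intro r a ha
        induction r using Fin.addCases with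
        | left r => rw [Fin.append_left] at ha; exact h9 r a ha
        | right r =>
          rw [Fin.append_right] at ha
          have := hG' r a ha
          omega
      · intro l F hF
        by_cases hl : l = d
        · simp only [hl, if_true]; exact k8 F hF
        · simp only [hl, if_false]; exact h10 l F hF
  intro d u
  obtain ⟨z, k, G, h0, h1, h2, h3, h4, h5, h6, h7, h8, h9, h10⟩ := aux d (max u (p * d))
  refine ⟨z, h1, h2, h3, fun l j hj => ⟨(h4 l j hj).1, (le_max_left _ _).trans (h4 l j hj).2⟩, h5,
    ?_, h10⟩
  refine hHER (n + 1) _ _ (hUNI n k G h7 h8 ?_) ?_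
  · intro i a ha
    have := (le_max_right _ _).trans (h9 i a ha)
    omega
  · intro a ha
    rw [Finset.mem_biUnion] at ha
    obtain ⟨l, -, hl⟩ := ha
    exact h6 l hl

end Pool.Agent.X69.SP
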